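import Mathlib
import Pool.Agent.R50.ErdosIndep

/-!
# Chromatic discrepancy: the inequality `φ(G) ≥ χ(G) - ω(G)` fails

Complements of triangle-free graphs with small independence ratio have chromatic discrepancy at most
`χ / 2`, while their clique number is `o(χ)`.
-/

set_option autoImplicit false

namespace Pool.Agent.Results.MP_2248a2_co.HalfIsSharp

open SimpleGraph Pool.Agent.W179.Erdos Pool.Agent.R50.ErdosIndep

/-- The chromatic discrepancy `φ(G)`: the least `d` such that `G` has a proper colouring `c` (with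
any number of colours) for which every induced subgraph `G[s]` receives at most `χ(G[s]) + d`
different colours. -/
noncomputable def chromaticDiscrepancy {V : Type} (G : SimpleGraph V) : ℕ :=
  sInf {d : ℕ | ∃ c : G.Coloring ℕ, ∀ s : Set V,
    (c '' s).encard ≤ (G.induce s).chromaticNumber + (d : ℕ∞)}

theorem card_le_two_mul {V ι : Type} [Fintype ι] (H : SimpleGraph V) (hH : H.CliqueFree 3)
    (r : ι → V) (m : ℕ) (D : ι → Fin m)
    (hD : ∀ i j, i ≠ j → D i = D j → H.Adj (r i) (r j)) : Fintype.card ι ≤ 2 * m := by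
  classical
  have h1 : (Finset.univ : Finset ι).card ≤ 2 * (Finset.univ : Finset (Fin m)).card := by
    refine Finset.card_le_mul_card_image_of_maps_to (f := D) (fun i _ => Finset.mem_univ _) 2 ?_
    intro b _
    by_contra hcon
    push Not at hcon
    obtain ⟨x, y, z, hx, hy, hz, hxy, hxz, hyz⟩ := Finset.two_lt_card_iff.1 hcon
    rw [Finset.mem_filter] at hx hy hz
    have e1 := hD x y hxy (hx.2.trans hy.2.symm)
    have e2 := hD x z hxz (hx.2.trans hz.2.symm)
    have e3 := hD y z hyz (hy.2.trans hz.2.symm)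
    exact hH {r x, r y, r z} (is3Clique_iff.2 ⟨_, _, _, e1, e2, e3, rfl⟩)
  rw [Finset.card_univ, Finset.card_univ, Fintype.card_fin] at h1
  exact h1

/-- The complement of a triangle-free graph has discrepancy at most `χ / 2`. -/
theorem discrepancy_le {V : Type} [Fintype V] (H : SimpleGraph V) (hH : H.CliqueFree 3) (n : ℕ)
    (hn : Hᶜ.chromaticNumber = n) : chromaticDiscrepancy Hᶜ ≤ n / 2 := by
  classical
  apply Nat.sInf_le
  obtain ⟨C⟩ := chromaticNumber_le_iff_colorable.1 hn.le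
  let c : Hᶜ.Coloring ℕ := Coloring.mk (fun v => (C v : ℕ)) (fun {u v} huv h1 =>
    C.valid huv (Fin.ext h1))
  refine ⟨c, ?_⟩
  intro s
  -- the number of colours on `s`
  have hfin : (c '' s).Finite := Set.toFinite _
  haveI : Fintype ↥(c '' s) := hfin.fintype
  have hcard : (c '' s).encard = (Fintype.card ↥(c '' s) : ℕ∞) := by
    rw [Set.encard_eq_coe_toFinset_card, Set.toFinset_card]
  rw [hcard]
  have hcol : (Hᶜ.induce s).Colorable (Fintype.card ↥s) := (Hᶜ.induce s).colorable_of_fintype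
  obtain ⟨m, hm⟩ : ∃ m : ℕ, (Hᶜ.induce s).chromaticNumber = m := by
    have h1 : (Hᶜ.induce s).chromaticNumber ≠ ⊤ := by
      rw [chromaticNumber_ne_top_iff_exists]
      exact ⟨_, hcol⟩
    exact ⟨_, (ENat.coe_toNat h1).symm⟩
  rw [hm]
  obtain ⟨D⟩ := chromaticNumber_le_iff_colorable.1 hm.le
  -- a transversal of the colour classes
  have hr : ∀ i : ↥(c '' s), ∃ v : ↥s, c v.1 = i.1 := fun i => by
    obtain ⟨v, hv, hvi⟩ := i.2
    exact ⟨⟨v, hv⟩, hvi⟩
  choose r hr using hr
  have hinj : ∀ i j, r i = r j → i = j := fun i j hij => Subtype.ext (by rw [← hr i, ← hr j, hij])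
  have h2 : Fintype.card ↥(c '' s) ≤ 2 * m := by
    refine card_le_two_mul H hH (fun i => (r i).1) m (fun i => D (r i)) ?_
    intro i j hij hD
    by_contra hadj
    have hne : (r i).1 ≠ (r j).1 := fun h3 => hij (hinj i j (Subtype.ext h3))
    have h4 : (Hᶜ.induce s).Adj (r i) (r j) := by
      rw [comap_adj, compl_adj]
      exact ⟨hne, hadj⟩
    exact D.valid h4 hD
  have h3 : Fintype.card ↥(c '' s) ≤ n := by
    have h4 : ∀ i : ↥(c '' s), i.1 < n := fun i => by
      rw [← hr i]
      exact (C (r i).1).2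
    have h5 := Fintype.card_le_of_injective (fun i : ↥(c '' s) => (⟨i.1, h4 i⟩ : Fin n))
      (fun i j hij => Subtype.ext (Fin.mk.inj_iff.1 hij))
    rwa [Fintype.card_fin] at h5
  have h6 : Fintype.card ↥(c '' s) ≤ m + n / 2 := by omega
  exact_mod_cast h6

/-- The inequality `φ(G) ≥ χ(G) - ω(G)` fails, and the constant `1/2` of the known lower bound
`φ(G) ≥ (χ(G) - ω(G)) / 2` is best possible: for every `ε > 0` and every `N` there is a finite graph
`G` with `χ(G) - ω(G) ≥ N` and `φ(G) ≤ (1/2 + ε) (χ(G) - ω(G))`. -/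
theorem result :
    (∀ ε : ℝ, 0 < ε → ∀ N : ℕ, ∃ (V : Type) (_ : Fintype V) (G : SimpleGraph V),
      (N : ℝ) ≤ (ENat.toNat G.chromaticNumber : ℝ) - (G.cliqueNum : ℝ) ∧
      (chromaticDiscrepancy G : ℝ) ≤
        (1 / 2 + ε) * ((ENat.toNat G.chromaticNumber : ℝ) - (G.cliqueNum : ℝ))) ∧
    ¬ ∀ (V : Type) [Fintype V] (G : SimpleGraph V),
      ENat.toNat G.chromaticNumber ≤ chromaticDiscrepancy G + G.cliqueNum := by
  have key : ∀ ε : ℝ, 0 < ε → ∀ N : ℕ, ∃ (V : Type) (_ : Fintype V) (G : SimpleGraph V),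
      (N : ℝ) ≤ (ENat.toNat G.chromaticNumber : ℝ) - (G.cliqueNum : ℝ) ∧
      (chromaticDiscrepancy G : ℝ) ≤
        (1 / 2 + ε) * ((ENat.toNat G.chromaticNumber : ℝ) - (G.cliqueNum : ℝ)) := by
    intro ε hε N
    classical
    obtain ⟨k0, hk0⟩ := exists_nat_gt ((1 + 2 * ε) / ε)
    let k : ℕ := k0 + 2 * N + 2
    obtain ⟨V, _, H, hI, hg⟩ := erdos_indep k 3 (by omega)
    have hH : H.CliqueFree 3 := triangleFree_of_girth le_rfl hg
    refine ⟨V, inferInstance, Hᶜ, ?_⟩
    obtain ⟨n, hn⟩ : ∃ n : ℕ, Hᶜ.chromaticNumber = n := by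
      have h1 : Hᶜ.chromaticNumber ≠ ⊤ := by
        rw [chromaticNumber_ne_top_iff_exists]
        exact ⟨_, Hᶜ.colorable_of_fintype⟩
      exact ⟨_, (ENat.coe_toNat h1).symm⟩
    have hd := discrepancy_le H hH n hn
    rw [hn, ENat.toNat_coe]
    obtain ⟨C⟩ := chromaticNumber_le_iff_colorable.1 hn.le
    have hcard : Fintype.card V ≤ 2 * n := by
      refine card_le_two_mul H hH (fun v => v) n (fun v => C v) ?_
      intro u v huv hC
      by_contra hadj
      exact C.valid ((compl_adj _ _ _).2 ⟨huv, hadj⟩) hC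
    obtain ⟨s, hs⟩ := Hᶜ.exists_isNClique_cliqueNum
    have hω : k * Hᶜ.cliqueNum < Fintype.card V := by
      rw [← hs.card_eq]
      exact hI s (by
        have := hs.isClique
        rwa [isClique_compl] at this)
    have hd' : (chromaticDiscrepancy Hᶜ : ℝ) ≤ (n : ℝ) / 2 := by
      have h1 : chromaticDiscrepancy Hᶜ * 2 ≤ n := by omega
      have h2 : (chromaticDiscrepancy Hᶜ : ℝ) * 2 ≤ n := by exact_mod_cast h1
      linarith
    have hω' : (k : ℝ) * (Hᶜ.cliqueNum : ℝ) < 2 * n := by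
      have h1 : k * Hᶜ.cliqueNum < 2 * n := lt_of_lt_of_le hω hcard
      exact_mod_cast h1
    have hn1 : (k : ℝ) ≤ 2 * n := by
      have hpos : 1 ≤ Hᶜ.cliqueNum := by
        have hV : 0 < Fintype.card V := lt_of_le_of_lt (Nat.zero_le _) hω
        obtain ⟨v⟩ := Fintype.card_pos_iff.1 hV
        have h1 : Hᶜ.IsClique ((({v} : Finset V)) : Set V) := by simp
        have h2 := h1.card_le_cliqueNum
        simpa using h2
      have h1 : (1 : ℝ) ≤ Hᶜ.cliqueNum := by exact_mod_cast hpos
      have h2 : (0 : ℝ) ≤ k := Nat.cast_nonneg _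
      nlinarith
    have hkval : (k : ℝ) = k0 + 2 * N + 2 := by
      show ((k0 + 2 * N + 2 : ℕ) : ℝ) = _
      push_cast
      ring
    have hk0' : (0 : ℝ) ≤ k0 := Nat.cast_nonneg _
    have hN0 : (0 : ℝ) ≤ N := Nat.cast_nonneg _
    have hkpos : (0 : ℝ) < k := by rw [hkval]; positivity
    have hωn : (Hᶜ.cliqueNum : ℝ) ≤ 2 * n / k := by
      rw [le_div_iff₀ hkpos]
      linarith
    have hnpos : (0 : ℝ) < n := by linarith
    constructor
    · have h1 : (n : ℝ) - 2 * n / k = n * (k - 2) / k := by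
        field_simp
      have h2 : (N : ℝ) ≤ n * (k - 2) / k := by
        rw [le_div_iff₀ hkpos]
        have h3 : (k : ℝ) - 2 = k0 + 2 * N := by rw [hkval]; ring
        rw [h3]
        nlinarith
      linarith
    · have h1 : (1 / 2 + ε) * ((n : ℝ) - 2 * n / k) ≤
          (1 / 2 + ε) * ((n : ℝ) - (Hᶜ.cliqueNum : ℝ)) :=
        mul_le_mul_of_nonneg_left (by linarith) (by linarith)
      refine hd'.trans (le_trans ?_ h1)
      have h2 : (1 / 2 + ε) * ((n : ℝ) - 2 * n / k) - n / 2 =
          n * (ε * k - (1 + 2 * ε)) / k := by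
        field_simp
        ring
      have h3 : 1 + 2 * ε ≤ ε * k := by
        rw [div_lt_iff₀ hε] at hk0
        rw [hkval]
        nlinarith
      have h4 : 0 ≤ n * (ε * k - (1 + 2 * ε)) / k := by
        apply div_nonneg _ hkpos.le
        exact mul_nonneg hnpos.le (by linarith)
      linarith
  refine ⟨key, ?_⟩
  intro hall
  obtain ⟨V, _, G, h1, h2⟩ := key (1 / 4) (by norm_num) 1
  have h3 := hall V G
  have h4 : (ENat.toNat G.chromaticNumber : ℝ) ≤ chromaticDiscrepancy G + G.cliqueNum := by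
    exact_mod_cast h3
  norm_num at h1 h2
  linarith

end Pool.Agent.Results.MP_2248a2_co.HalfIsSharp
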